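import Pool.Agent.P8H35.GZ.Stm5

/-!
Project GZ, part YX: bilinear and trilinear forms, and the homotopies.
-/

set_option autoImplicit false

namespace Pool.Agent.P8H29.GX

open Matrix

section forms

variable {B : Type} [CommRing B] {a b c : ℕ}

/-- linear form -/
def L1 (v : Fin a → B) : (Fin a → B) →ₗ[B] B := Fintype.linearCombination B v

/-- bilinear form -/
def L2 (F : Fin a → Fin b → B) : (Fin a → B) →ₗ[B] (Fin b → B) →ₗ[B] B :=
  Fintype.linearCombination B (fun i => L1 (F i))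

/-- trilinear form -/
def L3 (F : Fin a → Fin b → Fin c → B) :
    (Fin a → B) →ₗ[B] (Fin b → B) →ₗ[B] (Fin c → B) →ₗ[B] B :=
  Fintype.linearCombination B (fun i => L2 (F i))

/-- basis vector -/
abbrev e (i : Fin a) : Fin a → B := Pi.single i 1

theorem L1_e (v : Fin a → B) (i : Fin a) : L1 v (e i) = v i := by
  rw [L1, e, Fintype.linearCombination_apply_single, one_smul]

theorem L2_e (F : Fin a → Fin b → B) (i : Fin a) (j : Fin b) : L2 F (e i) (e j) = F i j := by
  rw [L2, e, Fintype.linearCombination_apply_single, one_smul]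
  exact L1_e _ _

theorem L3_e (F : Fin a → Fin b → Fin c → B) (i : Fin a) (j : Fin b) (k : Fin c) :
    L3 F (e i) (e j) (e k) = F i j k := by
  rw [L3, e, Fintype.linearCombination_apply_single, one_smul]
  exact L2_e _ _ _

theorem L1_apply (v w : Fin a → B) : L1 v w = ∑ i, w i * v i := by
  rw [L1, Fintype.linearCombination_apply]
  rfl

theorem L2_fst (F : Fin a → Fin b → B) (w : Fin a → B) (j : Fin b) :
    L2 F w (e j) = ∑ i, w i * F i j := by
  rw [L2, Fintype.linearCombination_apply, LinearMap.sum_apply]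
  refine Finset.sum_congr rfl fun i _ => ?_
  rw [LinearMap.smul_apply, L1_e, smul_eq_mul]

theorem L2_snd (F : Fin a → Fin b → B) (i : Fin a) (w : Fin b → B) :
    L2 F (e i) w = ∑ j, w j * F i j := by
  rw [L2, e, Fintype.linearCombination_apply_single, one_smul, L1_apply]

theorem L3_fst (F : Fin a → Fin b → Fin c → B) (w : Fin a → B) (j : Fin b) (k : Fin c) :
    L3 F w (e j) (e k) = ∑ i, w i * F i j k := by
  rw [L3, Fintype.linearCombination_apply, LinearMap.sum_apply, LinearMap.sum_apply]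
  refine Finset.sum_congr rfl fun i _ => ?_
  rw [LinearMap.smul_apply, LinearMap.smul_apply, L2_e, smul_eq_mul]

theorem L3_trd (F : Fin a → Fin b → Fin c → B) (i : Fin a) (j : Fin b) (w : Fin c → B) :
    L3 F (e i) (e j) w = ∑ k, w k * F i j k := by
  rw [L3, e, Fintype.linearCombination_apply_single, one_smul, L2_snd]

/-- a linear function that vanishes on the basis is zero -/
theorem van1 (E : (Fin a → B) → B) (ha : ∀ x y, E (x + y) = E x + E y)
    (hs : ∀ (r : B) x, E (r • x) = r * E x) (h : ∀ i, E (e i) = 0) (x : Fin a → B) : E x = 0 := by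
  have h1 : (⟨⟨E, ha⟩, hs⟩ : (Fin a → B) →ₗ[B] B) = 0 := by
    apply LinearMap.pi_ext'
    intro i
    apply LinearMap.ext_ring
    exact h i
  exact congrArg (fun L : (Fin a → B) →ₗ[B] B => L x) h1

theorem van2 (E : (Fin a → B) → (Fin b → B) → B)
    (h1 : ∀ x y z, E (x + y) z = E x z + E y z) (h2 : ∀ (r : B) x z, E (r • x) z = r * E x z)
    (h3 : ∀ x y z, E z (x + y) = E z x + E z y) (h4 : ∀ (r : B) x z, E z (r • x) = r * E z x)
    (h : ∀ i j, E (e i) (e j) = 0) (x : Fin a → B) (y : Fin b → B) : E x y = 0 :=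
  van1 (fun x => E x y) (fun _ _ => h1 _ _ _) (fun _ _ => h2 _ _ _)
    (fun i => van1 (fun y => E (e i) y) (fun _ _ => h3 _ _ _) (fun _ _ => h4 _ _ _) (h i) y) x

theorem van3 (E : (Fin a → B) → (Fin b → B) → (Fin c → B) → B)
    (h1 : ∀ x y z w, E (x + y) z w = E x z w + E y z w)
    (h2 : ∀ (r : B) x z w, E (r • x) z w = r * E x z w)
    (h3 : ∀ x y z w, E z (x + y) w = E z x w + E z y w)
    (h4 : ∀ (r : B) x z w, E z (r • x) w = r * E z x w)
    (h5 : ∀ x y z w, E z w (x + y) = E z w x + E z w y)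
    (h6 : ∀ (r : B) x z w, E z w (r • x) = r * E z w x)
    (h : ∀ i j k, E (e i) (e j) (e k) = 0) (x : Fin a → B) (y : Fin b → B) (z : Fin c → B) :
    E x y z = 0 :=
  van1 (fun x => E x y z) (fun _ _ => h1 _ _ _ _) (fun _ _ => h2 _ _ _ _)
    (fun i => van2 (fun y z => E (e i) y z) (fun _ _ _ => h3 _ _ _ _) (fun _ _ _ => h4 _ _ _ _)
      (fun _ _ _ => h5 _ _ _ _) (fun _ _ _ => h6 _ _ _ _) (h i) y z) x

end forms

/-! ### the homotopies, for modules `M`, `N` (the duals of `B^p`, `B^n`) -/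

section abstract

variable {B : Type} [CommRing B] {M N : Type} [AddCommGroup M] [Module B M] [AddCommGroup N]
  [Module B N] {D : M →ₗ[B] N} {D' : N →ₗ[B] M} {x : N →ₗ[B] B} {ξ : N} {s : B} {P : M →ₗ[B] M}

/-- the data -/
structure Ho (D : M →ₗ[B] N) (D' : N →ₗ[B] M) (x : N →ₗ[B] B) (ξ : N) (s : B)
    (P : M →ₗ[B] M) : Prop where
  h1 : ∀ a, x (D a) = 0
  h2 : x ξ = s
  h3 : ∀ α, D (D' α) = s • α - x α • ξ
  h4 : ∀ a, D' (D a) = s • a - P a
  h5 : ∀ a, D (P a) = 0
  h6 : ∀ a, P (P a) = s • P a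

/-- degree one, first step -/
theorem st1 (h : Ho D D' x ξ s P) (b : N →ₗ[B] M →ₗ[B] M →ₗ[B] B)
    (hb : ∀ α a a', b α a a' = -b α a' a)
    (hc : ∀ a a' a'', b (D a'') a a' + b (D a) a' a'' + b (D a') a'' a = 0)
    (T : M → N → N → B) (hT : ∀ a α β, T a α β = b α a (D' β) + b β a (D' α)) (α : N) (a a' : M) :
    T a α (D a') - T a' α (D a) + b ξ a a' * x α =
      3 * s * b α a a' - b α (P a) a' - b α a (P a') := by
  have e1 := hc a a' (D' α)
  rw [h.h3] at e1
  simp only [map_sub, map_smul, LinearMap.sub_apply, LinearMap.smul_apply, smul_eq_mul] at e1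
  rw [hT, hT, h.h4, h.h4]
  simp only [map_sub, map_smul, smul_eq_mul]
  have e2 := hb (D a') (D' α) a
  have e3 := hb α a' a
  have e4 := hb α a' (P a)
  linear_combination -e1 + e2 - s * e3 + e4

theorem st1' (h : Ho D D' x ξ s P) (b : N →ₗ[B] M →ₗ[B] M →ₗ[B] B)
    (hb : ∀ α a a', b α a a' = -b α a' a)
    (hc : ∀ a a' a'', b (D a'') a a' + b (D a) a' a'' + b (D a') a'' a = 0)
    (T : M → N → N → B) (hT : ∀ a α β, T a α β = b α a (D' β) + b β a (D' α)) (α : N) (a a' : M) :
    (2 * s ^ 2 * T a α (D a') + s * T (P a) α (D a')) -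
      (2 * s ^ 2 * T a' α (D a) + s * T (P a') α (D a)) +
      (2 * s ^ 2 * b ξ a a' + s * (b ξ (P a) a' + b ξ a (P a')) + 2 * b ξ (P a) (P a')) * x α =
      6 * s ^ 3 * b α a a' := by
  have e1 := st1 h b hb hc T hT α a a'
  have e2 := st1 h b hb hc T hT α (P a) a'
  have e3 := st1 h b hb hc T hT α a (P a')
  have e4 := st1 h b hb hc T hT α (P a) (P a')
  have z1 : ∀ c α, T c α 0 = 0 := by
    intro c α
    rw [hT, map_zero, map_zero, map_zero, LinearMap.zero_apply, LinearMap.zero_apply, add_zero]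
  rw [h.h5, z1] at e2
  rw [h.h5, z1] at e3
  rw [h.h5, h.h5, z1, z1] at e4
  simp only [h.h6, map_smul, LinearMap.smul_apply, smul_eq_mul] at e2 e3 e4
  linear_combination 2 * s ^ 2 * e1 + s * e2 + s * e3 + 2 * e4

/-- degree two, first step -/
theorem st2 (h : Ho D D' x ξ s P) (T : M →ₗ[B] N →ₗ[B] N →ₗ[B] B) (A : M →ₗ[B] M →ₗ[B] B)
    (hT : ∀ a α β, T a α β = T a β α) (hA : ∀ a a', A a a' = -A a' a)
    (hc : ∀ α a a', T a α (D a') - T a' α (D a) + A a a' * x α = 0)
    (f : N → N → N → B) (hf : ∀ α β γ, f α β γ = T (D' α) β γ + T (D' β) γ α + T (D' γ) α β)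
    (G : M → N → B) (hG : ∀ a α, G a α = T a α ξ + A (D' α) a) :
    (∀ a α β, f α β (D a) + G a α * x β + G a β * x α = 3 * s * T a α β - T (P a) α β) ∧
    ∀ a a', -(G a (D a') - G a' (D a)) = 3 * s * A a a' - A (P a) a' - A a (P a') := by
  constructor
  · intro a α β
    have e1 := hc β (D' α) a
    have e2 := hc α (D' β) a
    rw [h.h3] at e1 e2
    simp only [map_sub, map_smul, smul_eq_mul] at e1 e2
    rw [hf, hG, hG, h.h4]
    simp only [map_sub, map_smul, LinearMap.sub_apply, LinearMap.smul_apply, smul_eq_mul]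
    have e3 := hT (D' β) (D a) α
    have e4 := hT a α β
    linear_combination e1 + e2 + e3 - s * e4
  · intro a a'
    have e1 := hc ξ a a'
    rw [h.h2] at e1
    rw [hG, hG, h.h4, h.h4]
    simp only [map_sub, map_smul, LinearMap.sub_apply, LinearMap.smul_apply, smul_eq_mul]
    have e2 := hT a (D a') ξ
    have e3 := hT a' (D a) ξ
    have e4 := hA a' a
    have e5 := hA (P a') a
    linear_combination -e1 - e2 + e3 - s * e4 + e5

theorem st2' (h : Ho D D' x ξ s P) (T : M →ₗ[B] N →ₗ[B] N →ₗ[B] B) (A : M →ₗ[B] M →ₗ[B] B)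
    (hT : ∀ a α β, T a α β = T a β α) (hA : ∀ a a', A a a' = -A a' a)
    (hc : ∀ α a a', T a α (D a') - T a' α (D a) + A a a' * x α = 0)
    (f : N → N → N → B) (hf : ∀ α β γ, f α β γ = T (D' α) β γ + T (D' β) γ α + T (D' γ) α β)
    (G : M → N → B) (hG : ∀ a α, G a α = T a α ξ + A (D' α) a) :
    (∀ a α β, 2 * s ^ 2 * f α β (D a) + (2 * s ^ 2 * G a α + s * G (P a) α) * x β +
      (2 * s ^ 2 * G a β + s * G (P a) β) * x α = 6 * s ^ 3 * T a α β) ∧
    ∀ a a', -((2 * s ^ 2 * G a (D a') + s * G (P a) (D a')) -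
      (2 * s ^ 2 * G a' (D a) + s * G (P a') (D a))) = 6 * s ^ 3 * A a a' := by
  obtain ⟨k1, k2⟩ := st2 h T A hT hA hc f hf G hG
  have z1 : ∀ α β, f α β 0 = 0 := by
    intro α β
    rw [hf, map_zero, map_zero, map_zero, map_zero]
    simp only [LinearMap.zero_apply, add_zero]
  have z2 : ∀ a, G a 0 = 0 := by
    intro a
    rw [hG, map_zero, map_zero, map_zero]
    simp only [LinearMap.zero_apply, add_zero]
  constructor
  · intro a α β
    have e1 := k1 a α β
    have e2 := k1 (P a) α β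
    rw [h.h5, z1, h.h6] at e2
    simp only [map_smul, LinearMap.smul_apply, smul_eq_mul] at e2
    linear_combination 2 * s ^ 2 * e1 + s * e2
  · intro a a'
    have e1 := k2 a a'
    have e2 := k2 (P a) a'
    have e3 := k2 a (P a')
    have e4 := k2 (P a) (P a')
    rw [h.h5, z2] at e2
    rw [h.h5, z2] at e3
    rw [h.h5, h.h5, z2, z2] at e4
    simp only [h.h6, map_smul, LinearMap.smul_apply, smul_eq_mul] at e2 e3 e4
    linear_combination 2 * s ^ 2 * e1 + s * e2 + s * e3 + 2 * e4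

/-- degree three -/
theorem st3 (h : Ho D D' x ξ s P) (f : N →ₗ[B] N →ₗ[B] N →ₗ[B] B) (G : M →ₗ[B] N →ₗ[B] B)
    (hf1 : ∀ α β γ, f α β γ = f β α γ) (hf2 : ∀ α β γ, f α β γ = f α γ β)
    (hc : ∀ a α β, f α β (D a) + G a α * x β + G a β * x α = 0)
    (hd : ∀ a a', G a (D a') - G a' (D a) = 0)
    (T : N → N → B) (hT : ∀ α β, T α β = f α β ξ - G (D' α) β - G (D' β) α) :
    (∀ α β γ, T α β * x γ + T β γ * x α + T γ α * x β = 3 * s * f α β γ) ∧
    ∀ a α, -(2 * s * T (D a) α) = 6 * s ^ 2 * G a α := by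
  constructor
  · intro α β γ
    have e1 := hc (D' γ) α β
    have e2 := hc (D' α) β γ
    have e3 := hc (D' β) γ α
    rw [h.h3] at e1 e2 e3
    simp only [map_sub, map_smul, smul_eq_mul] at e1 e2 e3
    rw [hT, hT, hT]
    have g1 := hf1 β γ α
    have g2 := hf2 γ β α
    have g3 := hf1 γ α β
    have g4 := hf2 α γ β
    linear_combination -e1 - e2 - e3 + s * g1 + s * g2 + 2 * s * g3 + 2 * s * g4
  · have key : ∀ a α, -T (D a) α = 3 * s * G a α - G (P a) α := by
      intro a α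
      have e1 := hc a ξ α
      rw [h.h2] at e1
      have e2 := hd a (D' α)
      rw [h.h3] at e2
      simp only [map_sub, map_smul, smul_eq_mul] at e2
      rw [hT, h.h4]
      simp only [map_sub, map_smul, LinearMap.sub_apply, LinearMap.smul_apply, smul_eq_mul]
      have g1 := hf1 (D a) α ξ
      have g2 := hf2 α (D a) ξ
      have g3 := hf1 α ξ (D a)
      linear_combination -e1 - e2 - g1 - g2 - g3
    intro a α
    have e1 := key a α
    have e2 := key (P a) α
    have z1 : T 0 α = 0 := by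
      rw [hT, map_zero, map_zero, map_zero]
      simp only [LinearMap.zero_apply, map_zero, sub_zero]
    rw [h.h5, z1, h.h6] at e2
    simp only [map_smul, LinearMap.smul_apply, smul_eq_mul] at e2
    linear_combination 2 * s * e1 + e2

/-- degree four -/
theorem st4 (h : Ho D D' x ξ s P) (T : N →ₗ[B] N →ₗ[B] B)
    (hT : ∀ α β, T α β = T β α) (h0 : ∀ a α, T (D a) α = 0)
    (hc : ∀ α β γ, T α β * x γ + T β γ * x α + T γ α * x β = 0) (α β : N) :
    3 * s ^ 3 * T α β = 0 := by
  have e1 := h0 (D' α) β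
  have e2 := h0 (D' β) ξ
  rw [h.h3] at e1 e2
  simp only [map_sub, map_smul, LinearMap.sub_apply, LinearMap.smul_apply, smul_eq_mul] at e1 e2
  have e3 := hc ξ ξ ξ
  rw [h.h2] at e3
  have g1 := hT β ξ
  linear_combination 3 * s ^ 2 * e1 + 3 * s * x α * e2 - 3 * s * x α * s * g1 +
    x α * x β * e3

end abstract

end Pool.Agent.P8H29.GX
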