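import Pool.Agent.P8H29.GX.Forms

/-!
Project GZ, part YX: the third exterior power of `B → B^n → B^p`.
-/

set_option autoImplicit false

namespace Pool.Agent.P8H29.GX

open Matrix Pool.Agent.P8H35.GZ

section maps

variable {B : Type} [CommRing B] {n p : ℕ}

theorem alt_swap (A : AltM B p) (i j : Fin p) :
    (A : Matrix (Fin p) (Fin p) B) j i = -(A : Matrix (Fin p) (Fin p) B) i j := by
  have h := congrFun (congrFun A.2.1 i) j
  rwa [Matrix.neg_apply, Matrix.transpose_apply] at h

theorem alt_diag (A : AltM B p) (i : Fin p) : (A : Matrix (Fin p) (Fin p) B) i i = 0 := A.2.2 i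

theorem sym_swap (S : SymM B n) (i j : Fin n) :
    (S : Matrix (Fin n) (Fin n) B) j i = (S : Matrix (Fin n) (Fin n) B) i j :=
  congrFun (congrFun S.2 i) j

/-- an alternating matrix from a function -/
def mkA (F : Fin p → Fin p → B) (h1 : ∀ i j, F j i = -F i j) (h2 : ∀ i, F i i = 0) : AltM B p :=
  ⟨Matrix.of F, by
    refine ⟨?_, fun i => h2 i⟩
    ext i j
    exact h1 i j⟩

/-- a symmetric matrix from a function -/
def mkS (F : Fin n → Fin n → B) (h1 : ∀ i j, F j i = F i j) : SymM B n :=
  ⟨Matrix.of F, by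
    change (Matrix.of F)ᵀ = Matrix.of F
    ext i j
    exact h1 i j⟩

theorem mkA_apply (F : Fin p → Fin p → B) (h1 : ∀ i j, F j i = -F i j) (h2 : ∀ i, F i i = 0)
    (i j : Fin p) : (mkA F h1 h2 : Matrix (Fin p) (Fin p) B) i j = F i j := rfl

theorem mkS_apply (F : Fin n → Fin n → B) (h1 : ∀ i j, F j i = F i j)
    (i j : Fin n) : (mkS F h1 : Matrix (Fin n) (Fin n) B) i j = F i j := rfl

/-- the first map -/
def y1 (D : Matrix (Fin p) (Fin n) B) : (Fin n → AltM B p) →ₗ[B] Al3 B p where
  toFun b := ⟨fun i j m => ∑ l, ((b l : Matrix (Fin p) (Fin p) B) i j * D m l +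
      (b l : Matrix (Fin p) (Fin p) B) j m * D i l +
      (b l : Matrix (Fin p) (Fin p) B) m i * D j l), by
    refine ⟨fun i j m => ?_, fun i j m => ?_, fun i j => ?_, fun i j => ?_⟩
    · rw [← Finset.sum_neg_distrib]
      refine Finset.sum_congr rfl fun l _ => ?_
      rw [alt_swap (b l) i j, alt_swap (b l) m i, alt_swap (b l) j m]
      ring
    · rw [← Finset.sum_neg_distrib]
      refine Finset.sum_congr rfl fun l _ => ?_
      rw [alt_swap (b l) j m, alt_swap (b l) m i, alt_swap (b l) i j]
      ring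
    · refine Finset.sum_eq_zero fun l _ => ?_
      rw [alt_diag, alt_swap (b l) i j]
      ring
    · refine Finset.sum_eq_zero fun l _ => ?_
      rw [alt_diag, alt_swap (b l) i j]
      ring⟩
  map_add' b b' := by
    apply Subtype.ext
    funext i j m
    change ∑ l, (((b l : Matrix (Fin p) (Fin p) B) i j + (b' l : Matrix (Fin p) (Fin p) B) i j) *
      D m l + ((b l : Matrix (Fin p) (Fin p) B) j m + (b' l : Matrix (Fin p) (Fin p) B) j m) *
      D i l + ((b l : Matrix (Fin p) (Fin p) B) m i + (b' l : Matrix (Fin p) (Fin p) B) m i) *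
      D j l) = (∑ l, ((b l : Matrix (Fin p) (Fin p) B) i j * D m l +
      (b l : Matrix (Fin p) (Fin p) B) j m * D i l +
      (b l : Matrix (Fin p) (Fin p) B) m i * D j l)) +
      ∑ l, ((b' l : Matrix (Fin p) (Fin p) B) i j * D m l +
      (b' l : Matrix (Fin p) (Fin p) B) j m * D i l +
      (b' l : Matrix (Fin p) (Fin p) B) m i * D j l)
    rw [← Finset.sum_add_distrib]
    exact Finset.sum_congr rfl fun l _ => by ring
  map_smul' r b := by
    apply Subtype.ext
    funext i j m
    change ∑ l, ((r * (b l : Matrix (Fin p) (Fin p) B) i j) * D m l +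
      (r * (b l : Matrix (Fin p) (Fin p) B) j m) * D i l +
      (r * (b l : Matrix (Fin p) (Fin p) B) m i) * D j l) =
      r * ∑ l, ((b l : Matrix (Fin p) (Fin p) B) i j * D m l +
      (b l : Matrix (Fin p) (Fin p) B) j m * D i l +
      (b l : Matrix (Fin p) (Fin p) B) m i * D j l)
    rw [Finset.mul_sum]
    exact Finset.sum_congr rfl fun l _ => by ring

/-- the second map -/
def y2 (x : Fin n → B) (D : Matrix (Fin p) (Fin n) B) :
    ((Fin p → SymM B n) × AltM B p) →ₗ[B] (Fin n → AltM B p) where
  toFun z l := mkA (fun i j => (∑ m, ((z.1 i : Matrix (Fin n) (Fin n) B) l m * D j m -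
          (z.1 j : Matrix (Fin n) (Fin n) B) l m * D i m)) +
          (z.2 : Matrix (Fin p) (Fin p) B) i j * x l)
    (by
      intro i j
      rw [neg_add, ← Finset.sum_neg_distrib, alt_swap z.2 i j]
      congr 1
      · exact Finset.sum_congr rfl fun m _ => by ring
      · ring)
    (by
      intro i
      rw [alt_diag, zero_mul, add_zero]
      exact Finset.sum_eq_zero fun m _ => by ring)
  map_add' z w := by
    funext l
    apply Subtype.ext
    ext i j
    change (∑ m, (((z.1 i : Matrix (Fin n) (Fin n) B) l m + (w.1 i : Matrix (Fin n) (Fin n) B) l m) *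
      D j m - ((z.1 j : Matrix (Fin n) (Fin n) B) l m + (w.1 j : Matrix (Fin n) (Fin n) B) l m) *
      D i m)) + ((z.2 : Matrix (Fin p) (Fin p) B) i j + (w.2 : Matrix (Fin p) (Fin p) B) i j) * x l =
      ((∑ m, ((z.1 i : Matrix (Fin n) (Fin n) B) l m * D j m -
          (z.1 j : Matrix (Fin n) (Fin n) B) l m * D i m)) +
          (z.2 : Matrix (Fin p) (Fin p) B) i j * x l) +
      ((∑ m, ((w.1 i : Matrix (Fin n) (Fin n) B) l m * D j m -
          (w.1 j : Matrix (Fin n) (Fin n) B) l m * D i m)) +
          (w.2 : Matrix (Fin p) (Fin p) B) i j * x l)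
    have e1 : (∑ m, (((z.1 i : Matrix (Fin n) (Fin n) B) l m +
      (w.1 i : Matrix (Fin n) (Fin n) B) l m) *
      D j m - ((z.1 j : Matrix (Fin n) (Fin n) B) l m + (w.1 j : Matrix (Fin n) (Fin n) B) l m) *
      D i m)) = (∑ m, ((z.1 i : Matrix (Fin n) (Fin n) B) l m * D j m -
          (z.1 j : Matrix (Fin n) (Fin n) B) l m * D i m)) +
        ∑ m, ((w.1 i : Matrix (Fin n) (Fin n) B) l m * D j m -
          (w.1 j : Matrix (Fin n) (Fin n) B) l m * D i m) := by
      rw [← Finset.sum_add_distrib]
      exact Finset.sum_congr rfl fun m _ => by ring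
    rw [e1]
    ring
  map_smul' r z := by
    funext l
    apply Subtype.ext
    ext i j
    change (∑ m, ((r * (z.1 i : Matrix (Fin n) (Fin n) B) l m) *
      D j m - (r * (z.1 j : Matrix (Fin n) (Fin n) B) l m) *
      D i m)) + (r * (z.2 : Matrix (Fin p) (Fin p) B) i j) * x l =
      r * ((∑ m, ((z.1 i : Matrix (Fin n) (Fin n) B) l m * D j m -
          (z.1 j : Matrix (Fin n) (Fin n) B) l m * D i m)) +
          (z.2 : Matrix (Fin p) (Fin p) B) i j * x l)
    rw [mul_add, Finset.mul_sum]
    congr 1
    · exact Finset.sum_congr rfl fun m _ => by ring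
    · ring

/-- the third map -/
def y3 (x : Fin n → B) (D : Matrix (Fin p) (Fin n) B) :
    (Sy3 B n × Matrix (Fin p) (Fin n) B) →ₗ[B] ((Fin p → SymM B n) × AltM B p) where
  toFun z := (fun i => mkS (fun l m =>
        (∑ u, (z.1 : Fin n → Fin n → Fin n → B) l m u * D i u) + z.2 i l * x m + z.2 i m * x l)
      (by
        intro l m
        rw [show (∑ u, (z.1 : Fin n → Fin n → Fin n → B) m l u * D i u) =
          ∑ u, (z.1 : Fin n → Fin n → Fin n → B) l m u * D i u from
          Finset.sum_congr rfl fun u _ => by rw [z.1.2.1 l m u]]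
        ring),
      -(m1 D z.2))
  map_add' z w := by
    refine Prod.ext ?_ ?_
    · funext i
      apply Subtype.ext
      ext l m
      change (∑ u, ((z.1 : Fin n → Fin n → Fin n → B) l m u +
          (w.1 : Fin n → Fin n → Fin n → B) l m u) * D i u) + (z.2 i l + w.2 i l) * x m +
          (z.2 i m + w.2 i m) * x l =
        ((∑ u, (z.1 : Fin n → Fin n → Fin n → B) l m u * D i u) + z.2 i l * x m + z.2 i m * x l) +
        ((∑ u, (w.1 : Fin n → Fin n → Fin n → B) l m u * D i u) + w.2 i l * x m + w.2 i m * x l)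
      have e1 : (∑ u, ((z.1 : Fin n → Fin n → Fin n → B) l m u +
          (w.1 : Fin n → Fin n → Fin n → B) l m u) * D i u) =
          (∑ u, (z.1 : Fin n → Fin n → Fin n → B) l m u * D i u) +
            ∑ u, (w.1 : Fin n → Fin n → Fin n → B) l m u * D i u := by
        rw [← Finset.sum_add_distrib]
        exact Finset.sum_congr rfl fun u _ => by ring
      rw [e1]
      ring
    · change -(m1 D (z.2 + w.2)) = -(m1 D z.2) + -(m1 D w.2)
      rw [map_add, neg_add]
  map_smul' r z := by
    refine Prod.ext ?_ ?_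
    · funext i
      apply Subtype.ext
      ext l m
      change (∑ u, (r * (z.1 : Fin n → Fin n → Fin n → B) l m u) * D i u) + (r * z.2 i l) * x m +
          (r * z.2 i m) * x l =
        r * ((∑ u, (z.1 : Fin n → Fin n → Fin n → B) l m u * D i u) + z.2 i l * x m +
          z.2 i m * x l)
      rw [mul_add, mul_add, Finset.mul_sum]
      congr 1
      · congr 1
        · exact Finset.sum_congr rfl fun u _ => by ring
        · ring
      · ring
    · change -(m1 D (r • z.2)) = r • -(m1 D z.2)
      rw [map_smul, smul_neg]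

/-- the fourth map -/
def y4 (x : Fin n → B) (D : Matrix (Fin p) (Fin n) B) :
    SymM B n →ₗ[B] (Sy3 B n × Matrix (Fin p) (Fin n) B) where
  toFun T := (⟨fun l m u => (T : Matrix (Fin n) (Fin n) B) l m * x u +
      (T : Matrix (Fin n) (Fin n) B) m u * x l + (T : Matrix (Fin n) (Fin n) B) u l * x m, by
        refine ⟨fun l m u => ?_, fun l m u => ?_⟩
        · beta_reduce
          rw [sym_swap T l m, sym_swap T u l, sym_swap T m u]
          ring
        · beta_reduce
          rw [sym_swap T m u, sym_swap T u l, sym_swap T l m]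
          ring⟩, -(D * (T : Matrix (Fin n) (Fin n) B)))
  map_add' T T' := by
    refine Prod.ext (Subtype.ext ?_) ?_
    · funext l m u
      change ((T : Matrix (Fin n) (Fin n) B) l m + (T' : Matrix (Fin n) (Fin n) B) l m) * x u +
        ((T : Matrix (Fin n) (Fin n) B) m u + (T' : Matrix (Fin n) (Fin n) B) m u) * x l +
        ((T : Matrix (Fin n) (Fin n) B) u l + (T' : Matrix (Fin n) (Fin n) B) u l) * x m =
        ((T : Matrix (Fin n) (Fin n) B) l m * x u +
      (T : Matrix (Fin n) (Fin n) B) m u * x l + (T : Matrix (Fin n) (Fin n) B) u l * x m) +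
        ((T' : Matrix (Fin n) (Fin n) B) l m * x u +
      (T' : Matrix (Fin n) (Fin n) B) m u * x l + (T' : Matrix (Fin n) (Fin n) B) u l * x m)
      ring
    · change -(D * ((T : Matrix (Fin n) (Fin n) B) + (T' : Matrix (Fin n) (Fin n) B))) =
        -(D * (T : Matrix (Fin n) (Fin n) B)) + -(D * (T' : Matrix (Fin n) (Fin n) B))
      rw [Matrix.mul_add, neg_add]
  map_smul' r T := by
    refine Prod.ext (Subtype.ext ?_) ?_
    · funext l m u
      change (r * (T : Matrix (Fin n) (Fin n) B) l m) * x u +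
        (r * (T : Matrix (Fin n) (Fin n) B) m u) * x l +
        (r * (T : Matrix (Fin n) (Fin n) B) u l) * x m =
        r * ((T : Matrix (Fin n) (Fin n) B) l m * x u +
      (T : Matrix (Fin n) (Fin n) B) m u * x l + (T : Matrix (Fin n) (Fin n) B) u l * x m)
      ring
    · change -(D * (r • (T : Matrix (Fin n) (Fin n) B))) =
        r • -(D * (T : Matrix (Fin n) (Fin n) B))
      rw [Matrix.mul_smul, smul_neg]

end maps

end Pool.Agent.P8H29.GX
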