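import Pool.Agent.P8H29.GX.Yx

/-!
Project GZ, part YX: the third exterior power of `B → B^n → B^p`, the theorem.
-/

set_option autoImplicit false

namespace Pool.Agent.P8H29.GX

open Matrix Pool.Agent.P8H35.GZ

section dict

variable {B : Type} [CommRing B] {n p : ℕ}

/-- the transpose of `D` as a linear map -/
def tr {a b : ℕ} (D : Matrix (Fin a) (Fin b) B) : (Fin a → B) →ₗ[B] (Fin b → B) := Dᵀ.mulVecLin

theorem tr_e {a b : ℕ} (D : Matrix (Fin a) (Fin b) B) (j : Fin a) : tr D (e j) = fun m => D j m := by
  rw [tr, Matrix.mulVecLin_apply]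
  funext m
  rw [Matrix.mulVec_single_one]
  rfl

/-- the entries of an alternating or symmetric matrix etc. -/
theorem d1 (D : Matrix (Fin p) (Fin n) B) (b : Fin n → AltM B p) (a a' a'' : Fin p → B) :
    L3 (y1 D b : Fin p → Fin p → Fin p → B) a a' a'' =
      L3 (fun l i j => (b l : Matrix (Fin p) (Fin p) B) i j) (tr D a'') a a' +
      L3 (fun l i j => (b l : Matrix (Fin p) (Fin p) B) i j) (tr D a) a' a'' +
      L3 (fun l i j => (b l : Matrix (Fin p) (Fin p) B) i j) (tr D a') a'' a := by
  rw [← sub_eq_zero]
  revert a a' a''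
  apply van3
  · intro x y z w; simp only [map_add, LinearMap.add_apply]; ring
  · intro r x z w; simp only [map_smul, LinearMap.smul_apply, smul_eq_mul]; ring
  · intro x y z w; simp only [map_add, LinearMap.add_apply]; ring
  · intro r x z w; simp only [map_smul, LinearMap.smul_apply, smul_eq_mul]; ring
  · intro x y z w; simp only [map_add, LinearMap.add_apply]; ring
  · intro r x z w; simp only [map_smul, LinearMap.smul_apply, smul_eq_mul]; ring
  · intro i j m
    rw [L3_e, tr_e, tr_e, tr_e, L3_fst, L3_fst, L3_fst, sub_eq_zero, ← Finset.sum_add_distrib,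
      ← Finset.sum_add_distrib]
    change ∑ l, ((b l : Matrix (Fin p) (Fin p) B) i j * D m l +
      (b l : Matrix (Fin p) (Fin p) B) j m * D i l +
      (b l : Matrix (Fin p) (Fin p) B) m i * D j l) = _
    exact Finset.sum_congr rfl fun l _ => by ring

theorem d2 (x : Fin n → B) (D : Matrix (Fin p) (Fin n) B) (T : Fin p → SymM B n) (A : AltM B p)
    (α : Fin n → B) (a a' : Fin p → B) :
    L3 (fun l i j => (y2 x D (T, A) l : Matrix (Fin p) (Fin p) B) i j) α a a' =
      L3 (fun i l m => (T i : Matrix (Fin n) (Fin n) B) l m) a α (tr D a') -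
      L3 (fun i l m => (T i : Matrix (Fin n) (Fin n) B) l m) a' α (tr D a) +
      L2 (fun i j => (A : Matrix (Fin p) (Fin p) B) i j) a a' * L1 x α := by
  rw [← sub_eq_zero]
  revert α a a'
  apply van3
  · intro x y z w; simp only [map_add, LinearMap.add_apply]; ring
  · intro r x z w; simp only [map_smul, LinearMap.smul_apply, smul_eq_mul]; ring
  · intro x y z w; simp only [map_add, LinearMap.add_apply]; ring
  · intro r x z w; simp only [map_smul, LinearMap.smul_apply, smul_eq_mul]; ring
  · intro x y z w; simp only [map_add, LinearMap.add_apply]; ring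
  · intro r x z w; simp only [map_smul, LinearMap.smul_apply, smul_eq_mul]; ring
  · intro l i j
    rw [L3_e, tr_e, tr_e, L3_trd, L3_trd, L2_e, L1_e, sub_eq_zero, ← Finset.sum_sub_distrib]
    change (∑ m, ((T i : Matrix (Fin n) (Fin n) B) l m * D j m -
          (T j : Matrix (Fin n) (Fin n) B) l m * D i m)) +
          (A : Matrix (Fin p) (Fin p) B) i j * x l = _
    congr 1
    exact Finset.sum_congr rfl fun m _ => by ring

theorem d3 (x : Fin n → B) (D : Matrix (Fin p) (Fin n) B) (f : Sy3 B n)
    (G : Matrix (Fin p) (Fin n) B) (a : Fin p → B) (α β : Fin n → B) :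
    L3 (fun i l m => ((y3 x D (f, G)).1 i : Matrix (Fin n) (Fin n) B) l m) a α β =
      L3 (f : Fin n → Fin n → Fin n → B) α β (tr D a) + L2 (fun i l => G i l) a α * L1 x β +
        L2 (fun i l => G i l) a β * L1 x α := by
  rw [← sub_eq_zero]
  revert a α β
  apply van3
  · intro x y z w; simp only [map_add, LinearMap.add_apply]; ring
  · intro r x z w; simp only [map_smul, LinearMap.smul_apply, smul_eq_mul]; ring
  · intro x y z w; simp only [map_add, LinearMap.add_apply]; ring
  · intro r x z w; simp only [map_smul, LinearMap.smul_apply, smul_eq_mul]; ring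
  · intro x y z w; simp only [map_add, LinearMap.add_apply]; ring
  · intro r x z w; simp only [map_smul, LinearMap.smul_apply, smul_eq_mul]; ring
  · intro i l m
    rw [L3_e, tr_e, L3_trd, L2_e, L2_e, L1_e, L1_e, sub_eq_zero]
    change (∑ u, (f : Fin n → Fin n → Fin n → B) l m u * D i u) + G i l * x m + G i m * x l = _
    congr 2
    exact Finset.sum_congr rfl fun m _ => by ring

theorem d3' (x : Fin n → B) (D : Matrix (Fin p) (Fin n) B) (f : Sy3 B n)
    (G : Matrix (Fin p) (Fin n) B) (a a' : Fin p → B) :
    L2 (fun i j => ((y3 x D (f, G)).2 : Matrix (Fin p) (Fin p) B) i j) a a' =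
      -(L2 (fun i l => G i l) a (tr D a') - L2 (fun i l => G i l) a' (tr D a)) := by
  rw [← sub_eq_zero]
  revert a a'
  apply van2
  · intro x y z; simp only [map_add, LinearMap.add_apply]; ring
  · intro r x z; simp only [map_smul, LinearMap.smul_apply, smul_eq_mul]; ring
  · intro x y z; simp only [map_add, LinearMap.add_apply]; ring
  · intro r x z; simp only [map_smul, LinearMap.smul_apply, smul_eq_mul]; ring
  · intro i j
    rw [L2_e, tr_e, tr_e, L2_snd, L2_snd, sub_eq_zero]
    change -((G * Dᵀ) i j - (D * Gᵀ) i j) = _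
    rw [Matrix.mul_apply, Matrix.mul_apply]
    congr 2
    · exact Finset.sum_congr rfl fun m _ => by rw [Matrix.transpose_apply]; ring

theorem d4 (x : Fin n → B) (D : Matrix (Fin p) (Fin n) B) (T : SymM B n) (α β γ : Fin n → B) :
    L3 ((y4 x D T).1 : Fin n → Fin n → Fin n → B) α β γ =
      L2 (fun i j => (T : Matrix (Fin n) (Fin n) B) i j) α β * L1 x γ +
      L2 (fun i j => (T : Matrix (Fin n) (Fin n) B) i j) β γ * L1 x α +
      L2 (fun i j => (T : Matrix (Fin n) (Fin n) B) i j) γ α * L1 x β := by
  rw [← sub_eq_zero]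
  revert α β γ
  apply van3
  · intro x y z w; simp only [map_add, LinearMap.add_apply]; ring
  · intro r x z w; simp only [map_smul, LinearMap.smul_apply, smul_eq_mul]; ring
  · intro x y z w; simp only [map_add, LinearMap.add_apply]; ring
  · intro r x z w; simp only [map_smul, LinearMap.smul_apply, smul_eq_mul]; ring
  · intro x y z w; simp only [map_add, LinearMap.add_apply]; ring
  · intro r x z w; simp only [map_smul, LinearMap.smul_apply, smul_eq_mul]; ring
  · intro i l m
    rw [L3_e, L2_e, L2_e, L2_e, L1_e, L1_e, L1_e]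
    exact sub_self _

theorem d4' (x : Fin n → B) (D : Matrix (Fin p) (Fin n) B) (T : SymM B n) (a : Fin p → B)
    (α : Fin n → B) :
    L2 (fun i l => (y4 x D T).2 i l) a α = -L2 (fun i j => (T : Matrix (Fin n) (Fin n) B) i j) (tr D a) α := by
  rw [← sub_eq_zero]
  revert a α
  apply van2
  · intro x y z; simp only [map_add, LinearMap.add_apply]; ring
  · intro r x z; simp only [map_smul, LinearMap.smul_apply, smul_eq_mul]; ring
  · intro x y z; simp only [map_add, LinearMap.add_apply]; ring
  · intro r x z; simp only [map_smul, LinearMap.smul_apply, smul_eq_mul]; ring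
  · intro i j
    rw [L2_e, tr_e, L2_fst, sub_eq_zero]
    change -((D * (T : Matrix (Fin n) (Fin n) B)) i j) = _
    rw [Matrix.mul_apply]

/-! symmetries of the forms -/

theorem sk2 (A : AltM B p) (a a' : Fin p → B) :
    L2 (fun i j => (A : Matrix (Fin p) (Fin p) B) i j) a a' =
      -L2 (fun i j => (A : Matrix (Fin p) (Fin p) B) i j) a' a := by
  rw [← sub_eq_zero]
  revert a a'
  apply van2
  · intro x y z; simp only [map_add, LinearMap.add_apply]; ring
  · intro r x z; simp only [map_smul, LinearMap.smul_apply, smul_eq_mul]; ring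
  · intro x y z; simp only [map_add, LinearMap.add_apply]; ring
  · intro r x z; simp only [map_smul, LinearMap.smul_apply, smul_eq_mul]; ring
  · intro i j
    rw [L2_e, L2_e, alt_swap A i j]
    ring

theorem sy2 (T : SymM B n) (a a' : Fin n → B) :
    L2 (fun i j => (T : Matrix (Fin n) (Fin n) B) i j) a a' =
      L2 (fun i j => (T : Matrix (Fin n) (Fin n) B) i j) a' a := by
  rw [← sub_eq_zero]
  revert a a'
  apply van2
  · intro x y z; simp only [map_add, LinearMap.add_apply]; ring
  · intro r x z; simp only [map_smul, LinearMap.smul_apply, smul_eq_mul]; ring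
  · intro x y z; simp only [map_add, LinearMap.add_apply]; ring
  · intro r x z; simp only [map_smul, LinearMap.smul_apply, smul_eq_mul]; ring
  · intro i j
    rw [L2_e, L2_e, sym_swap T i j]
    ring

theorem sk3 (b : Fin n → AltM B p) (α : Fin n → B) (a a' : Fin p → B) :
    L3 (fun l i j => (b l : Matrix (Fin p) (Fin p) B) i j) α a a' =
      -L3 (fun l i j => (b l : Matrix (Fin p) (Fin p) B) i j) α a' a := by
  rw [← sub_eq_zero]
  revert α a a'
  apply van3
  · intro x y z w; simp only [map_add, LinearMap.add_apply]; ring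
  · intro r x z w; simp only [map_smul, LinearMap.smul_apply, smul_eq_mul]; ring
  · intro x y z w; simp only [map_add, LinearMap.add_apply]; ring
  · intro r x z w; simp only [map_smul, LinearMap.smul_apply, smul_eq_mul]; ring
  · intro x y z w; simp only [map_add, LinearMap.add_apply]; ring
  · intro r x z w; simp only [map_smul, LinearMap.smul_apply, smul_eq_mul]; ring
  · intro l i j
    rw [L3_e, L3_e, alt_swap (b l) i j]
    ring

theorem sy3 (T : Fin p → SymM B n) (a : Fin p → B) (α β : Fin n → B) :
    L3 (fun i l m => (T i : Matrix (Fin n) (Fin n) B) l m) a α β =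
      L3 (fun i l m => (T i : Matrix (Fin n) (Fin n) B) l m) a β α := by
  rw [← sub_eq_zero]
  revert a α β
  apply van3
  · intro x y z w; simp only [map_add, LinearMap.add_apply]; ring
  · intro r x z w; simp only [map_smul, LinearMap.smul_apply, smul_eq_mul]; ring
  · intro x y z w; simp only [map_add, LinearMap.add_apply]; ring
  · intro r x z w; simp only [map_smul, LinearMap.smul_apply, smul_eq_mul]; ring
  · intro x y z w; simp only [map_add, LinearMap.add_apply]; ring
  · intro r x z w; simp only [map_smul, LinearMap.smul_apply, smul_eq_mul]; ring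
  · intro i l m
    rw [L3_e, L3_e, sym_swap (T i) l m]
    ring

theorem sf1 (f : Sy3 B n) (α β γ : Fin n → B) :
    L3 (f : Fin n → Fin n → Fin n → B) α β γ = L3 (f : Fin n → Fin n → Fin n → B) β α γ := by
  rw [← sub_eq_zero]
  revert α β γ
  apply van3
  · intro x y z w; simp only [map_add, LinearMap.add_apply]; ring
  · intro r x z w; simp only [map_smul, LinearMap.smul_apply, smul_eq_mul]; ring
  · intro x y z w; simp only [map_add, LinearMap.add_apply]; ring
  · intro r x z w; simp only [map_smul, LinearMap.smul_apply, smul_eq_mul]; ring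
  · intro x y z w; simp only [map_add, LinearMap.add_apply]; ring
  · intro r x z w; simp only [map_smul, LinearMap.smul_apply, smul_eq_mul]; ring
  · intro i l m
    rw [L3_e, L3_e, f.2.1 i l m]
    ring

theorem sf2 (f : Sy3 B n) (α β γ : Fin n → B) :
    L3 (f : Fin n → Fin n → Fin n → B) α β γ = L3 (f : Fin n → Fin n → Fin n → B) α γ β := by
  rw [← sub_eq_zero]
  revert α β γ
  apply van3
  · intro x y z w; simp only [map_add, LinearMap.add_apply]; ring
  · intro r x z w; simp only [map_smul, LinearMap.smul_apply, smul_eq_mul]; ring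
  · intro x y z w; simp only [map_add, LinearMap.add_apply]; ring
  · intro r x z w; simp only [map_smul, LinearMap.smul_apply, smul_eq_mul]; ring
  · intro x y z w; simp only [map_add, LinearMap.add_apply]; ring
  · intro r x z w; simp only [map_smul, LinearMap.smul_apply, smul_eq_mul]; ring
  · intro i l m
    rw [L3_e, L3_e, f.2.2 i l m]
    ring

/-- the data of the homotopy -/
theorem ho (x : Fin n → B) (D : Matrix (Fin p) (Fin n) B) (s : B) (ξ : Fin n → B)
    (D' : Matrix (Fin n) (Fin p) B) (h : Con x D s ξ D') :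
    Ho (tr D) (tr D') (L1 x) ξ s (s • LinearMap.id - tr D' ∘ₗ tr D) := by
  have k1 : ∀ a, L1 x (tr D a) = 0 := by
    intro a
    have e1 : L1 x (tr D a) = (Dᵀ *ᵥ a) ⬝ᵥ x := by
      rw [L1_apply]
      rfl
    rw [e1, Matrix.mulVec_transpose, ← Matrix.dotProduct_mulVec, h.dx, dotProduct_zero]
  have k2 : L1 x ξ = s := by
    rw [L1_apply]
    exact h.xx
  have k3 : ∀ α, tr D (tr D' α) = s • α - L1 x α • ξ := by
    intro α
    change Dᵀ *ᵥ (D'ᵀ *ᵥ α) = _
    rw [Matrix.mulVec_mulVec, ← Matrix.transpose_mul, eq_sub_of_add_eq h.cc, Matrix.transpose_sub,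
      Matrix.sub_mulVec, Matrix.transpose_smul, Matrix.transpose_one, Matrix.smul_mulVec,
      Matrix.one_mulVec]
    congr 1
    rw [L1_apply]
    funext i
    change ∑ j, x j * ξ i * α j = (∑ j, α j * x j) * ξ i
    rw [Finset.sum_mul]
    exact Finset.sum_congr rfl fun j _ => by ring
  have k5 : ∀ a, tr D ((s • LinearMap.id - tr D' ∘ₗ tr D : (Fin p → B) →ₗ[B] (Fin p → B)) a) = 0 := by
    intro a
    rw [LinearMap.sub_apply, LinearMap.smul_apply, LinearMap.id_apply, LinearMap.comp_apply,
      map_sub, map_smul, k3, k1, zero_smul, sub_zero, sub_self]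
  refine ⟨k1, k2, k3, fun a => ?_, k5, fun a => ?_⟩
  · rw [LinearMap.sub_apply, LinearMap.smul_apply, LinearMap.id_apply, LinearMap.comp_apply]
    abel
  · rw [LinearMap.sub_apply, LinearMap.smul_apply, LinearMap.id_apply, LinearMap.comp_apply, k5,
      map_zero, sub_zero]

end dict

end Pool.Agent.P8H29.GX
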