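import Pool.Agent.P8H29.GX.Yx2

/-!
Project GZ, part YX: the third exterior power of `B → B^n → B^p`, the theorem.
-/

set_option autoImplicit false

namespace Pool.Agent.P8H29.GX

open Matrix Pool.Agent.P8H35.GZ

section exact

variable {B : Type} [CommRing B] {n p : ℕ}

theorem L2_ext {a b : ℕ} (F : Fin a → Fin b → B) (E : (Fin a → B) → (Fin b → B) → B)
    (h1 : ∀ x y z, E (x + y) z = E x z + E y z) (h2 : ∀ (r : B) x z, E (r • x) z = r * E x z)
    (h3 : ∀ x y z, E z (x + y) = E z x + E z y) (h4 : ∀ (r : B) x z, E z (r • x) = r * E z x)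
    (h : ∀ i j, F i j = E (e i) (e j)) (x : Fin a → B) (y : Fin b → B) : L2 F x y = E x y := by
  rw [← sub_eq_zero]
  revert x y
  apply van2
  · intro x y z; simp only [map_add, LinearMap.add_apply, h1]; ring
  · intro r x z; simp only [map_smul, LinearMap.smul_apply, smul_eq_mul, h2]; ring
  · intro x y z; simp only [map_add, h3]; ring
  · intro r x z; simp only [map_smul, smul_eq_mul, h4]; ring
  · intro i j
    rw [L2_e, h i j, sub_self]

theorem L3_ext {a b c : ℕ} (F : Fin a → Fin b → Fin c → B)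
    (E : (Fin a → B) → (Fin b → B) → (Fin c → B) → B)
    (h1 : ∀ x y z w, E (x + y) z w = E x z w + E y z w)
    (h2 : ∀ (r : B) x z w, E (r • x) z w = r * E x z w)
    (h3 : ∀ x y z w, E z (x + y) w = E z x w + E z y w)
    (h4 : ∀ (r : B) x z w, E z (r • x) w = r * E z x w)
    (h5 : ∀ x y z w, E z w (x + y) = E z w x + E z w y)
    (h6 : ∀ (r : B) x z w, E z w (r • x) = r * E z w x)
    (h : ∀ i j k, F i j k = E (e i) (e j) (e k)) (x : Fin a → B) (y : Fin b → B) (z : Fin c → B) :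
    L3 F x y z = E x y z := by
  rw [← sub_eq_zero]
  revert x y z
  apply van3
  · intro x y z w; simp only [map_add, LinearMap.add_apply, h1]; ring
  · intro r x z w; simp only [map_smul, LinearMap.smul_apply, smul_eq_mul, h2]; ring
  · intro x y z w; simp only [map_add, LinearMap.add_apply, h3]; ring
  · intro r x z w; simp only [map_smul, LinearMap.smul_apply, smul_eq_mul, h4]; ring
  · intro x y z w; simp only [map_add, h5]; ring
  · intro r x z w; simp only [map_smul, smul_eq_mul, h6]; ring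
  · intro i j k
    rw [L3_e, h i j k, sub_self]

theorem L2_zero {a b : ℕ} (F : Fin a → Fin b → B) (h : ∀ i j, F i j = 0) (x : Fin a → B)
    (y : Fin b → B) : L2 F x y = 0 :=
  L2_ext F (fun _ _ => 0) (fun _ _ _ => by simp) (fun _ _ _ => by simp) (fun _ _ _ => by simp)
    (fun _ _ _ => by simp) h x y

theorem L3_zero {a b c : ℕ} (F : Fin a → Fin b → Fin c → B) (h : ∀ i j k, F i j k = 0)
    (x : Fin a → B) (y : Fin b → B) (z : Fin c → B) : L3 F x y z = 0 :=
  L3_ext F (fun _ _ _ => 0) (fun _ _ _ _ => by simp) (fun _ _ _ _ => by simp)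
    (fun _ _ _ _ => by simp) (fun _ _ _ _ => by simp) (fun _ _ _ _ => by simp)
    (fun _ _ _ _ => by simp) h x y z

theorem six {B : Type} [CommRing B] (h2 : IsUnit (2 : B)) (h3 : IsUnit (3 : B)) :
    ∃ u : B, u * 6 = 1 := by
  have h6 : IsUnit (6 : B) := by
    have h := h2.mul h3
    have e1 : (2 : B) * 3 = 6 := by norm_num
    rwa [e1] at h
  obtain ⟨u, hu⟩ := h6
  exact ⟨((u⁻¹ : Bˣ) : B), by rw [← hu]; exact u.inv_mul⟩

theorem half {B : Type} [CommRing B] (h2 : IsUnit (2 : B)) (a : B) (h : a = -a) : a = 0 := by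
  have h1 : (2 : B) * a = 0 := by linear_combination h
  exact (h2.mul_right_eq_zero).1 h1

/-- exactness in degree one -/
theorem ex1 (h2 : IsUnit (2 : B)) (h3 : IsUnit (3 : B)) (x : Fin n → B)
    (D : Matrix (Fin p) (Fin n) B) (s : B) (ξ : Fin n → B) (D' : Matrix (Fin n) (Fin p) B)
    (hC : Con x D s ξ D') (b : Fin n → AltM B p) (hb : y1 D b = 0) :
    s ^ 3 • b ∈ LinearMap.range (y2 x D) := by
  have H := ho x D s ξ D' hC
  set P : (Fin p → B) →ₗ[B] (Fin p → B) := s • LinearMap.id - tr D' ∘ₗ tr D with hP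
  set bb := L3 (fun l i j => (b l : Matrix (Fin p) (Fin p) B) i j) with hbb
  have sk : ∀ α a a', bb α a a' = -bb α a' a := sk3 b
  have cy : ∀ a a' a'', bb (tr D a'') a a' + bb (tr D a) a' a'' + bb (tr D a') a'' a = 0 := by
    intro a a' a''
    rw [hbb, ← d1, hb]
    exact L3_zero _ (fun _ _ _ => rfl) a a' a''
  obtain ⟨u, hu⟩ := six h2 h3
  have key := st1' H bb sk cy (fun a α β => bb α a (tr D' β) + bb β a (tr D' α))
    (fun _ _ _ => rfl)
  let UU : (Fin p → B) → (Fin n → B) → (Fin n → B) → B := fun a α β =>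
    u * (2 * s ^ 2 * (bb α a (tr D' β) + bb β a (tr D' α)) +
      s * (bb α (P a) (tr D' β) + bb β (P a) (tr D' α)))
  let VV : (Fin p → B) → (Fin p → B) → B := fun a a' =>
    u * (2 * s ^ 2 * bb ξ a a' + s * (bb ξ (P a) a' + bb ξ a (P a')) + 2 * bb ξ (P a) (P a'))
  let z : (Fin p → SymM B n) × AltM B p :=
    (fun i => mkS (fun l m => UU (e i) (e l) (e m)) (fun l m => by
      change u * _ = u * _
      ring), mkA (fun i j => VV (e i) (e j)) (fun i j => by
        change u * _ = -(u * _)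
        rw [sk ξ (e j) (e i), sk ξ (P (e j)) (e i), sk ξ (e j) (P (e i)),
          sk ξ (P (e j)) (P (e i))]
        ring) (fun i => by
        apply half h2
        change u * _ = -(u * _)
        have g1 := sk ξ (e i) (e i)
        have g2 := sk ξ (P (e i)) (e i)
        have g3 := sk ξ (P (e i)) (P (e i))
        linear_combination 2 * u * s ^ 2 * g1 + 2 * u * s * g2 + 2 * u * g3))
  refine ⟨z, ?_⟩
  funext l
  apply Subtype.ext
  ext i j
  have e0 := d2 x D z.1 z.2 (e l) (e i) (e j)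
  rw [L3_e] at e0
  have e1 : ∀ a α β, L3 (fun i l m => (z.1 i : Matrix (Fin n) (Fin n) B) l m) a α β = UU a α β := by
    apply L3_ext
    · intro x y z w; simp only [UU, map_add, LinearMap.add_apply]; ring
    · intro r x z w; simp only [UU, map_smul, LinearMap.smul_apply, smul_eq_mul]; ring
    · intro x y z w; simp only [UU, map_add, LinearMap.add_apply]; ring
    · intro r x z w; simp only [UU, map_smul, LinearMap.smul_apply, smul_eq_mul]; ring
    · intro x y z w; simp only [UU, map_add, LinearMap.add_apply]; ring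
    · intro r x z w; simp only [UU, map_smul, LinearMap.smul_apply, smul_eq_mul]; ring
    · intro i j k; rfl
  have e2 : L2 (fun i j => (z.2 : Matrix (Fin p) (Fin p) B) i j) (e i) (e j) = VV (e i) (e j) :=
    L2_e _ _ _
  rw [e1, e1, e2] at e0
  have e3 := key (e l) (e i) (e j)
  have e4 : bb (e l) (e i) (e j) = (b l : Matrix (Fin p) (Fin p) B) i j := L3_e _ _ _ _
  rw [e4] at e3
  change (y2 x D (z.1, z.2) l : Matrix (Fin p) (Fin p) B) i j =
    s ^ 3 * (b l : Matrix (Fin p) (Fin p) B) i j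
  rw [e0]
  change u * _ - u * _ + u * _ * _ = _
  beta_reduce at e3
  linear_combination u * e3 + s ^ 3 * (b l : Matrix (Fin p) (Fin p) B) i j * hu

/-- exactness in degree two -/
theorem ex2 (h2 : IsUnit (2 : B)) (h3 : IsUnit (3 : B)) (x : Fin n → B)
    (D : Matrix (Fin p) (Fin n) B) (s : B) (ξ : Fin n → B) (D' : Matrix (Fin n) (Fin p) B)
    (hC : Con x D s ξ D') (y : (Fin p → SymM B n) × AltM B p) (hy : y2 x D y = 0) :
    s ^ 3 • y ∈ LinearMap.range (y3 x D) := by
  have H := ho x D s ξ D' hC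
  set P : (Fin p → B) →ₗ[B] (Fin p → B) := s • LinearMap.id - tr D' ∘ₗ tr D with hP
  obtain ⟨T, A⟩ := y
  set TT := L3 (fun i l m => (T i : Matrix (Fin n) (Fin n) B) l m) with hTT
  set AA := L2 (fun i j => (A : Matrix (Fin p) (Fin p) B) i j) with hAA
  have sT : ∀ a α β, TT a α β = TT a β α := sy3 T
  have sA : ∀ a a', AA a a' = -AA a' a := sk2 A
  have cy : ∀ α a a', TT a α (tr D a') - TT a' α (tr D a) + AA a a' * L1 x α = 0 := by
    intro α a a'
    rw [hTT, hAA, ← d2, hy]
    exact L3_zero _ (fun _ _ _ => rfl) α a a'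
  obtain ⟨u, hu⟩ := six h2 h3
  obtain ⟨key1, key2⟩ := st2' H TT AA sT sA cy
    (fun α β γ => TT (tr D' α) β γ + TT (tr D' β) γ α + TT (tr D' γ) α β) (fun _ _ _ => rfl)
    (fun a α => TT a α ξ + AA (tr D' α) a) (fun _ _ => rfl)
  let FF : (Fin n → B) → (Fin n → B) → (Fin n → B) → B := fun α β γ =>
    u * (2 * s ^ 2 * (TT (tr D' α) β γ + TT (tr D' β) γ α + TT (tr D' γ) α β))
  let GG : (Fin p → B) → (Fin n → B) → B := fun a α =>
    u * (2 * s ^ 2 * (TT a α ξ + AA (tr D' α) a) + s * (TT (P a) α ξ + AA (tr D' α) (P a)))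
  let f : Sy3 B n := ⟨fun l m v => FF (e l) (e m) (e v), by
    refine ⟨fun l m v => ?_, fun l m v => ?_⟩
    · change u * _ = u * _
      rw [sT (tr D' (e m)) (e l) (e v), sT (tr D' (e l)) (e v) (e m),
        sT (tr D' (e v)) (e m) (e l)]
      ring
    · change u * _ = u * _
      rw [sT (tr D' (e l)) (e v) (e m), sT (tr D' (e v)) (e m) (e l),
        sT (tr D' (e m)) (e l) (e v)]
      ring⟩
  let G : Matrix (Fin p) (Fin n) B := Matrix.of fun i l => GG (e i) (e l)
  have e1 : ∀ α β γ, L3 (f : Fin n → Fin n → Fin n → B) α β γ = FF α β γ := by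
    apply L3_ext
    · intro x y z w; simp only [FF, map_add, LinearMap.add_apply]; ring
    · intro r x z w; simp only [FF, map_smul, LinearMap.smul_apply, smul_eq_mul]; ring
    · intro x y z w; simp only [FF, map_add, LinearMap.add_apply]; ring
    · intro r x z w; simp only [FF, map_smul, LinearMap.smul_apply, smul_eq_mul]; ring
    · intro x y z w; simp only [FF, map_add, LinearMap.add_apply]; ring
    · intro r x z w; simp only [FF, map_smul, LinearMap.smul_apply, smul_eq_mul]; ring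
    · intro i j k; rfl
  have e2 : ∀ a α, L2 (fun i l => G i l) a α = GG a α := by
    apply L2_ext
    · intro x y w; simp only [GG, map_add, LinearMap.add_apply]; ring
    · intro r x w; simp only [GG, map_smul, LinearMap.smul_apply, smul_eq_mul]; ring
    · intro x y w; simp only [GG, map_add, LinearMap.add_apply]; ring
    · intro r x w; simp only [GG, map_smul, LinearMap.smul_apply, smul_eq_mul]; ring
    · intro i j; rfl
  refine ⟨(f, G), ?_⟩
  refine Prod.ext ?_ ?_
  · funext i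
    apply Subtype.ext
    ext l m
    have e0 := d3 x D f G (e i) (e l) (e m)
    rw [L3_e, e1, e2, e2] at e0
    have e3 := key1 (e i) (e l) (e m)
    have e4 : TT (e i) (e l) (e m) = (T i : Matrix (Fin n) (Fin n) B) l m := L3_e _ _ _ _
    rw [e4] at e3
    change ((y3 x D (f, G)).1 i : Matrix (Fin n) (Fin n) B) l m =
      s ^ 3 * (T i : Matrix (Fin n) (Fin n) B) l m
    rw [e0]
    change u * _ + u * _ * _ + u * _ * _ = _
    beta_reduce at e3
    linear_combination u * e3 + s ^ 3 * (T i : Matrix (Fin n) (Fin n) B) l m * hu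
  · apply Subtype.ext
    ext i j
    have e0 := d3' x D f G (e i) (e j)
    rw [L2_e, e2, e2] at e0
    have e3 := key2 (e i) (e j)
    have e4 : AA (e i) (e j) = (A : Matrix (Fin p) (Fin p) B) i j := L2_e _ _ _
    rw [e4] at e3
    change ((y3 x D (f, G)).2 : Matrix (Fin p) (Fin p) B) i j =
      s ^ 3 * (A : Matrix (Fin p) (Fin p) B) i j
    rw [e0]
    change -(u * _ - u * _) = _
    beta_reduce at e3
    linear_combination u * e3 + s ^ 3 * (A : Matrix (Fin p) (Fin p) B) i j * hu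

/-- exactness in degree three -/
theorem ex3 (h2 : IsUnit (2 : B)) (h3 : IsUnit (3 : B)) (x : Fin n → B)
    (D : Matrix (Fin p) (Fin n) B) (s : B) (ξ : Fin n → B) (D' : Matrix (Fin n) (Fin p) B)
    (hC : Con x D s ξ D') (y : Sy3 B n × Matrix (Fin p) (Fin n) B) (hy : y3 x D y = 0) :
    s ^ 2 • y ∈ LinearMap.range (y4 x D) := by
  have H := ho x D s ξ D' hC
  obtain ⟨f, G⟩ := y
  set FF := L3 (f : Fin n → Fin n → Fin n → B) with hFF
  set GG := L2 (fun i l => G i l) with hGG
  have sF1 : ∀ α β γ, FF α β γ = FF β α γ := sf1 f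
  have sF2 : ∀ α β γ, FF α β γ = FF α γ β := sf2 f
  have cy : ∀ a α β, FF α β (tr D a) + GG a α * L1 x β + GG a β * L1 x α = 0 := by
    intro a α β
    rw [hFF, hGG, ← d3, hy]
    exact L3_zero _ (fun _ _ _ => rfl) a α β
  have cz : ∀ a a', GG a (tr D a') - GG a' (tr D a) = 0 := by
    intro a a'
    rw [← neg_eq_zero, hGG, ← d3' x D f, hy]
    exact L2_zero _ (fun _ _ => rfl) a a'
  obtain ⟨u, hu⟩ := six h2 h3
  obtain ⟨key1, key2⟩ := st3 H FF GG sF1 sF2 cy cz
    (fun α β => FF α β ξ - GG (tr D' α) β - GG (tr D' β) α) (fun _ _ => rfl)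
  let TT : (Fin n → B) → (Fin n → B) → B := fun α β =>
    u * (2 * s * (FF α β ξ - GG (tr D' α) β - GG (tr D' β) α))
  let T : SymM B n := mkS (fun l m => TT (e l) (e m)) (fun l m => by
    change u * _ = u * _
    rw [sF1 (e m) (e l) ξ]
    ring)
  have e1 : ∀ α β, L2 (fun i j => (T : Matrix (Fin n) (Fin n) B) i j) α β = TT α β := by
    apply L2_ext
    · intro x y w; simp only [TT, map_add, LinearMap.add_apply]; ring
    · intro r x w; simp only [TT, map_smul, LinearMap.smul_apply, smul_eq_mul]; ring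
    · intro x y w; simp only [TT, map_add, LinearMap.add_apply]; ring
    · intro r x w; simp only [TT, map_smul, LinearMap.smul_apply, smul_eq_mul]; ring
    · intro i j; rfl
  refine ⟨T, ?_⟩
  refine Prod.ext (Subtype.ext ?_) ?_
  · funext l m v
    have e0 := d4 x D T (e l) (e m) (e v)
    rw [L3_e, e1, e1, e1] at e0
    have e3 := key1 (e l) (e m) (e v)
    have e4 : FF (e l) (e m) (e v) = (f : Fin n → Fin n → Fin n → B) l m v := L3_e _ _ _ _
    rw [e4] at e3
    change ((y4 x D T).1 : Fin n → Fin n → Fin n → B) l m v =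
      s ^ 2 * (f : Fin n → Fin n → Fin n → B) l m v
    rw [e0]
    change u * _ * _ + u * _ * _ + u * _ * _ = _
    beta_reduce at e3
    linear_combination 2 * s * u * e3 + s ^ 2 * (f : Fin n → Fin n → Fin n → B) l m v * hu
  · ext i l
    have e0 := d4' x D T (e i) (e l)
    rw [L2_e, e1] at e0
    have e3 := key2 (e i) (e l)
    have e4 : GG (e i) (e l) = G i l := L2_e _ _ _
    rw [e4] at e3
    change (y4 x D T).2 i l = s ^ 2 * G i l
    rw [e0]
    change -(u * _) = _
    beta_reduce at e3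
    linear_combination u * e3 + s ^ 2 * G i l * hu

/-- exactness in degree four -/
theorem ex4 (h3 : IsUnit (3 : B)) (x : Fin n → B)
    (D : Matrix (Fin p) (Fin n) B) (s : B) (ξ : Fin n → B) (D' : Matrix (Fin n) (Fin p) B)
    (hC : Con x D s ξ D') (T : SymM B n) (hy : y4 x D T = 0) : s ^ 3 • T = 0 := by
  have H := ho x D s ξ D' hC
  set TT := L2 (fun i j => (T : Matrix (Fin n) (Fin n) B) i j) with hTT
  have sT : ∀ α β, TT α β = TT β α := sy2 T
  have h0 : ∀ a α, TT (tr D a) α = 0 := by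
    intro a α
    rw [← neg_eq_zero, hTT, ← d4', hy]
    exact L2_zero _ (fun _ _ => rfl) a α
  have cy : ∀ α β γ, TT α β * L1 x γ + TT β γ * L1 x α + TT γ α * L1 x β = 0 := by
    intro α β γ
    rw [hTT, ← d4, hy]
    exact L3_zero _ (fun _ _ _ => rfl) α β γ
  apply Subtype.ext
  ext i j
  have key := st4 H TT sT h0 cy (e i) (e j)
  have e4 : TT (e i) (e j) = (T : Matrix (Fin n) (Fin n) B) i j := L2_e _ _ _
  rw [e4] at key
  change s ^ 3 * (T : Matrix (Fin n) (Fin n) B) i j = 0
  rw [mul_assoc] at key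
  exact (h3.mul_right_eq_zero).1 key

theorem k1 (x : Fin n → B) (D : Matrix (Fin p) (Fin n) B) (hx : D *ᵥ x = 0) (a : Fin p → B) :
    L1 x (tr D a) = 0 := by
  have e1 : L1 x (tr D a) = (Dᵀ *ᵥ a) ⬝ᵥ x := by
    rw [L1_apply]
    rfl
  rw [e1, Matrix.mulVec_transpose, ← Matrix.dotProduct_mulVec, hx, dotProduct_zero]

theorem c12 (x : Fin n → B) (D : Matrix (Fin p) (Fin n) B) (hx : D *ᵥ x = 0) :
    y1 D ∘ₗ y2 x D = 0 := by
  apply LinearMap.ext
  rintro ⟨T, A⟩
  apply Subtype.ext
  funext i j m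
  have e0 := d1 D (y2 x D (T, A)) (e i) (e j) (e m)
  rw [L3_e, d2, d2, d2, k1 x D hx, k1 x D hx, k1 x D hx] at e0
  change (y1 D (y2 x D (T, A)) : Fin p → Fin p → Fin p → B) i j m = 0
  rw [e0, sy3 T (e i) (tr D (e m)) (tr D (e j)), sy3 T (e j) (tr D (e m)) (tr D (e i)),
    sy3 T (e m) (tr D (e j)) (tr D (e i))]
  ring

theorem c23 (x : Fin n → B) (D : Matrix (Fin p) (Fin n) B) (hx : D *ᵥ x = 0) :
    y2 x D ∘ₗ y3 x D = 0 := by
  apply LinearMap.ext
  rintro ⟨f, G⟩
  funext l
  apply Subtype.ext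
  ext i j
  have e0 := d2 x D (y3 x D (f, G)).1 (y3 x D (f, G)).2 (e l) (e i) (e j)
  rw [L3_e, d3, d3, d3', k1 x D hx, k1 x D hx, sf2 f (e l) (tr D (e j)) (tr D (e i))] at e0
  change (y2 x D (y3 x D (f, G)) l : Matrix (Fin p) (Fin p) B) i j = 0
  refine e0.trans ?_
  ring

theorem c34 (x : Fin n → B) (D : Matrix (Fin p) (Fin n) B) (hx : D *ᵥ x = 0) :
    y3 x D ∘ₗ y4 x D = 0 := by
  apply LinearMap.ext
  intro T
  refine Prod.ext ?_ ?_
  · funext i
    apply Subtype.ext
    ext l m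
    have e0 := d3 x D (y4 x D T).1 (y4 x D T).2 (e i) (e l) (e m)
    rw [L3_e, d4, d4', d4', k1 x D hx, sy2 T (e m) (tr D (e i))] at e0
    change ((y3 x D (y4 x D T)).1 i : Matrix (Fin n) (Fin n) B) l m = 0
    refine e0.trans ?_
    ring
  · apply Subtype.ext
    ext i j
    have e0 := d3' x D (y4 x D T).1 (y4 x D T).2 (e i) (e j)
    rw [L2_e, d4', d4', sy2 T (tr D (e j)) (tr D (e i))] at e0
    change ((y3 x D (y4 x D T)).2 : Matrix (Fin p) (Fin p) B) i j = 0
    refine e0.trans ?_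
    ring

end exact

/-- **YX** -/
theorem yx : S_YX := by
  intro B _ h2 h3 n p x D hx
  refine ⟨y1 D, y2 x D, y3 x D, y4 x D, fun _ _ _ _ => rfl, fun _ _ _ _ => rfl,
    fun _ _ _ _ => rfl, fun _ => rfl, fun _ _ _ _ => rfl, fun _ => rfl, c12 x D hx, c23 x D hx,
    c34 x D hx, ?_⟩
  intro s ξ D' hC
  exact ⟨fun b hb => ⟨3, ex1 h2 h3 x D s ξ D' hC b hb⟩, fun z hz => ⟨3, ex2 h2 h3 x D s ξ D' hC z hz⟩,
    fun z hz => ⟨2, ex3 h2 h3 x D s ξ D' hC z hz⟩, fun T hT => ⟨3, ex4 h3 x D s ξ D' hC T hT⟩⟩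

end Pool.Agent.P8H29.GX
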